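import Pool.Agent.H8.VR.Targets

/-!
# Module CL of the board vr_modules: the universally closed formula
-/

set_option autoImplicit false

namespace Pool.Agent.H48.VR.CL

open Pool.Agent.H8.VR

theorem cnt_iff {A : Type} [Finite A] (P : ℕ → A → Prop) (R : ℕ → A → A → Prop) (v : Bool)
    (φ : C2) (s : Bool → A) :
    (C2.cnt 1 1 0 v φ).Sat P R s ↔ ∃ a, φ.Sat P R (Function.update s v a) := by
  have h1 : {a | φ.Sat P R (Function.update s v a)}.Finite := Set.toFinite _
  constructor
  · rintro ⟨h, -⟩
    obtain ⟨a, ha⟩ := (Set.ncard_pos h1).1 h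
    exact ⟨a, ha⟩
  · rintro ⟨a, ha⟩
    exact ⟨(Set.ncard_pos h1).2 ⟨a, ha⟩, Nat.modEq_one⟩

theorem cl : T_CL := by
  intro φ A _ _ P R
  refine ⟨?_, rfl⟩
  have key : ∀ s : Bool → A, φ.clo.Sat P R s ↔
      ¬ ∃ b c, ¬ φ.Sat P R (Function.update (Function.update s false b) true c) := by
    intro s
    have h1 : φ.clo.Sat P R s ↔ ¬ (C2.cnt 1 1 0 false (.cnt 1 1 0 true (.neg φ))).Sat P R s :=
      Iff.rfl
    rw [h1, cnt_iff]
    refine not_congr (exists_congr fun b => ?_)
    rw [cnt_iff]
    exact Iff.rfl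
  constructor
  · intro h a
    rw [key]
    rintro ⟨b, c, hbc⟩
    exact hbc (h _)
  · intro h s
    by_contra hs
    refine (key (fun _ => s false)).1 (h (s false)) ⟨s false, s true, ?_⟩
    have h2 : Function.update (Function.update (fun _ : Bool => s false) false (s false)) true
        (s true) = s := by
      funext x
      cases x
      · simp
      · simp
    rw [h2]
    exact hs

end Pool.Agent.H48.VR.CL
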